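import Pool.Agent.H632R3.BranchLim

/-!
# Totally ordered families of fixed points
-/

open Filter Topology Set

namespace Pool.Agent.Y982.BF

open Pool.Agent.H632R3.Branch

variable {X : Type}

section

variable {G : (X → ℝ) → (X → ℝ)} (hG : GoodOp G) {a b : X → ℝ}

include hG

theorem phi_mono_uu (ha : Box a) (hb : Box b) (hab : a ≤ b) (F : Finset X) {u w : ℝ}
    (h0 : 0 ≤ u) (huw : u ≤ w) (h1 : w ≤ 1) (k : ℕ) : phi G a b F u k ≤ phi G a b F w k := by
  have hw : ∀ x, (1 - u) * a x + u * b x ≤ (1 - w) * a x + w * b x := by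
    intro x; nlinarith [hab x]
  induction k with
  | zero =>
    intro x
    simp only [phi]
    split_ifs
    · exact le_rfl
    · exact hw x
  | succ k ih =>
    intro x
    simp only [phi]
    split_ifs
    · exact hG.mono _ _ (phi_box hG ha hb F h0 (huw.trans h1) k)
        (phi_box hG ha hb F (h0.trans huw) h1 k) ih x
    · exact hw x

open Classical in
/-- Totally ordered intermediate solutions of the system truncated to a finite set. -/
theorem truncated_mono (ha : Box a) (hb : Box b) (hab : a ≤ b) (fa : G a = a) (fb : G b = b)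
    (la : Tendsto (fun k => G^[k] 0) atTop (𝓝 a))
    (lb : ∀ F : Finset X, Tendsto (fun k => G^[k] (fun x => if x ∈ F then 0 else b x)) atTop (𝓝 b))
    (x0 : X) (F : Finset X) :
    ∃ σ : ℝ → X → ℝ, (∀ c ∈ Ioo (a x0) (b x0), Box (σ c) ∧ (∀ x ∈ F, G (σ c) x = σ c x) ∧
      a ≤ σ c ∧ σ c ≤ b ∧ σ c x0 = c) ∧
      ∀ c ∈ Ioo (a x0) (b x0), ∀ c' ∈ Ioo (a x0) (b x0), c ≤ c' → σ c ≤ σ c' := by
  have hlim : ∀ u ∈ Icc (0 : ℝ) 1, ∃ s : X → ℝ, Tendsto (fun k => phi G a b F u k) atTop (𝓝 s) ∧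
      ∀ k, phi G a b F u k ≤ s := by
    intro u hu
    have hm : ∀ x, Monotone fun k => phi G a b F u k x := fun x =>
      monotone_nat_of_le_succ fun k => phi_mono hG ha hb F hu.1 hu.2 k x
    have hbd : ∀ x, BddAbove (range fun k => phi G a b F u k x) := fun x =>
      ⟨1, by rintro _ ⟨k, rfl⟩; exact (phi_box hG ha hb F hu.1 hu.2 k x).2⟩
    refine ⟨fun x => ⨆ k, phi G a b F u k x, ?_, ?_⟩
    · rw [tendsto_pi_nhds]
      exact fun x => tendsto_atTop_ciSup (hm x) (hbd x)
    · intro k x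
      exact le_ciSup (hbd x) k
  choose! Phi hPhi hPhi' using hlim
  have hPx : ∀ u ∈ Icc (0 : ℝ) 1, ∀ x, Tendsto (fun k => phi G a b F u k x) atTop
      (𝓝 (Phi u x)) := fun u hu x => (tendsto_pi_nhds.mp (hPhi u hu)) x
  have hPbox : ∀ u ∈ Icc (0 : ℝ) 1, Box (Phi u) := by
    intro u hu x
    refine ⟨ge_of_tendsto' (hPx u hu x) fun k => (phi_box hG ha hb F hu.1 hu.2 k x).1,
      le_of_tendsto' (hPx u hu x) fun k => (phi_box hG ha hb F hu.1 hu.2 k x).2⟩
  have hPmono : ∀ u ∈ Icc (0 : ℝ) 1, ∀ w ∈ Icc (0 : ℝ) 1, u ≤ w → Phi u ≤ Phi w := by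
    intro u hu w hw huw x
    exact le_of_tendsto_of_tendsto' (hPx u hu x) (hPx w hw x) fun k =>
      phi_mono_uu hG ha hb hab F hu.1 huw hw.2 k x
  let A : ℝ → Set ℝ := fun c => {u | u ∈ Icc (0 : ℝ) 1 ∧ Phi u x0 ≤ c}
  have hA0 : ∀ c, a x0 < c → (0 : ℝ) ∈ A c := by
    intro c hc1
    refine ⟨⟨le_rfl, zero_le_one⟩, ?_⟩
    have : Phi 0 x0 ≤ a x0 :=
      le_of_tendsto' (hPx 0 ⟨le_rfl, zero_le_one⟩ x0) fun k => phi_zero_le hG ha hb fa F k x0
    linarith
  have hAb : ∀ c, BddAbove (A c) := fun c => ⟨1, fun u hu => hu.1.2⟩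
  let v : ℝ → ℝ := fun c => sSup (A c)
  have hvI : ∀ c, a x0 < c → v c ∈ Icc (0 : ℝ) 1 := fun c hc =>
    ⟨le_csSup (hAb c) (hA0 c hc), csSup_le ⟨0, hA0 c hc⟩ fun u hu => hu.1.2⟩
  refine ⟨fun c => Phi (v c), fun c hc => ?_, fun c hc c' hc' hcc => ?_⟩
  · have hc1 := hc.1
    have hc2 := hc.2
    have hv0 := (hvI c hc1).1
    have hv1 := (hvI c hc1).2
    have hvI' := hvI c hc1
    have hvcl : v c ∈ closure (A c) := csSup_mem_closure ⟨0, hA0 c hc1⟩ (hAb c)
    have hvc : Phi (v c) x0 ≤ c := by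
      refine le_of_tendsto' (hPx (v c) hvI' x0) fun k => ?_
      have h1 := (tendsto_pi_nhds.mp (phi_cont hG ha hb F k (v c) hvI')) x0
      have h2 : Tendsto (fun u => phi G a b F u k x0) (𝓝[A c] (v c))
          (𝓝 (phi G a b F (v c) k x0)) :=
        h1.mono_left (nhdsWithin_mono _ fun u hu => hu.1)
      haveI : (𝓝[A c] (v c)).NeBot := mem_closure_iff_nhdsWithin_neBot.mp hvcl
      refine le_of_tendsto h2 ?_
      filter_upwards [self_mem_nhdsWithin] with u hu
      exact (hPhi' u hu.1 k x0).trans hu.2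
    have hP1 : b x0 ≤ Phi 1 x0 := by
      have h1 := (tendsto_pi_nhds.mp (lb F)) x0
      exact le_of_tendsto_of_tendsto' h1 (hPx 1 ⟨zero_le_one, le_rfl⟩ x0) fun k =>
        le_phi_one hG ha hb fb F k x0
    have hvlt : v c < 1 := by
      rcases hv1.lt_or_eq with h | h
      · exact h
      · exfalso
        rw [h] at hvc
        linarith
    have hvc' : c ≤ Phi (v c) x0 := by
      by_contra hcon
      push Not at hcon
      obtain ⟨θ, hθ0, hθ1, hθ⟩ : ∃ θ : ℝ, 0 < θ ∧ θ ≤ 1 ∧ Phi (v c) x0 + θ < c := by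
        refine ⟨min 1 ((c - Phi (v c) x0) / 2), ?_, min_le_left _ _, ?_⟩
        · apply lt_min one_pos; linarith
        · have := min_le_right 1 ((c - Phi (v c) x0) / 2)
          linarith
      have hu0 : 0 ≤ (1 - θ) * v c + θ := by nlinarith
      have hu1 : (1 - θ) * v c + θ ≤ 1 := by nlinarith
      have hugt : v c < (1 - θ) * v c + θ := by nlinarith
      have hnot : (1 - θ) * v c + θ ∉ A c := fun hmem =>
        absurd (le_csSup (hAb c) hmem) (not_le.mpr hugt)
      have hgt : c < Phi ((1 - θ) * v c + θ) x0 := by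
        by_contra h; exact hnot ⟨⟨hu0, hu1⟩, not_lt.mp h⟩
      have hle : Phi ((1 - θ) * v c + θ) x0 ≤ Phi (v c) x0 + θ := by
        refine le_of_tendsto' (hPx _ ⟨hu0, hu1⟩ x0) fun k => ?_
        have h1 := phi_conv hG ha hb hab F hv0 hv1 hθ0.le hθ1 k x0
        have h2 := hPhi' (v c) hvI' k x0
        have h3 := (phi_box hG ha hb F zero_le_one le_rfl k x0).2
        have h4 := (phi_box hG ha hb F hv0 hv1 k x0).1
        nlinarith
      linarith
    refine ⟨hPbox (v c) hvI', ?_, ?_, ?_, le_antisymm hvc hvc'⟩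
    · intro x hx
      have h1 := hG.cont atTop (fun k => phi G a b F (v c) k) (Phi (v c))
        (Eventually.of_forall fun k => phi_box hG ha hb F hv0 hv1 k) (hPbox (v c) hvI')
        (hPhi (v c) hvI')
      have h2 := (tendsto_pi_nhds.mp h1) x
      have h3 : Tendsto (fun k => phi G a b F (v c) (k + 1) x) atTop (𝓝 (Phi (v c) x)) :=
        (tendsto_add_atTop_iff_nat 1).mpr (hPx (v c) hvI' x)
      have h4 : (fun k => phi G a b F (v c) (k + 1) x)
          = fun k => G (phi G a b F (v c) k) x := by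
        funext k; simp only [phi, if_pos hx]
      rw [h4] at h3
      exact tendsto_nhds_unique h2 h3
    · intro x
      exact le_of_tendsto_of_tendsto' ((tendsto_pi_nhds.mp la) x) (hPx (v c) hvI' x) fun k =>
        iter_le_phi hG ha hb hab fa F hv0 hv1 k x
    · intro x
      exact le_of_tendsto' (hPx (v c) hvI' x) fun k => phi_le_b hG ha hb hab fb F hv0 hv1 k x
  · refine hPmono _ (hvI c hc.1) _ (hvI c' hc'.1) ?_
    exact csSup_le_csSup (hAb c') ⟨0, hA0 c hc.1⟩ fun u hu => ⟨hu.1, hu.2.trans hcc⟩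

open Classical in
/-- Abstract intermediate value theorem for fixed points, totally ordered version. -/
theorem core_mono (ha : Box a) (hb : Box b) (hab : a ≤ b) (fa : G a = a) (fb : G b = b)
    (la : Tendsto (fun k => G^[k] 0) atTop (𝓝 a))
    (lb : ∀ F : Finset X, Tendsto (fun k => G^[k] (fun x => if x ∈ F then 0 else b x)) atTop (𝓝 b))
    (x0 : X) :
    ∃ s : ℝ → X → ℝ, (∀ c ∈ Ioo (a x0) (b x0), Box (s c) ∧ G (s c) = s c ∧ a ≤ s c ∧ s c ≤ b ∧
      s c x0 = c) ∧ ∀ c ∈ Ioo (a x0) (b x0), ∀ c' ∈ Ioo (a x0) (b x0), c ≤ c' → s c ≤ s c' := by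
  choose σ hσ hσm using truncated_mono hG ha hb hab fa fb la lb x0
  let U : Ultrafilter (Finset X) := Ultrafilter.of atTop
  have hUle : (U : Filter (Finset X)) ≤ atTop := Ultrafilter.of_le _
  have hK : IsCompact (Set.pi univ fun _ : X => Icc (0 : ℝ) 1) := isCompact_univ_pi fun _ =>
    isCompact_Icc
  have hex : ∀ c ∈ Ioo (a x0) (b x0), ∃ s : X → ℝ, Box s ∧
      Tendsto (fun F => σ F c) (U : Filter (Finset X)) (𝓝 s) := by
    intro c hc
    have hmem : ∀ F, σ F c ∈ Set.pi univ fun _ : X => Icc (0 : ℝ) 1 := fun F x _ =>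
      (hσ F c hc).1 x
    obtain ⟨s, hsK, hs⟩ := hK.ultrafilter_le_nhds' (U.map fun F => σ F c) (by
      rw [Ultrafilter.mem_map]
      exact Filter.Eventually.of_forall (f := (U : Filter (Finset X))) hmem)
    exact ⟨s, fun x => hsK x (mem_univ x), hs⟩
  choose! s hsbox hst using hex
  have hx : ∀ c ∈ Ioo (a x0) (b x0), ∀ x,
      Tendsto (fun F => σ F c x) (U : Filter (Finset X)) (𝓝 (s c x)) :=
    fun c hc x => (tendsto_pi_nhds.mp (hst c hc)) x
  refine ⟨s, fun c hc => ⟨hsbox c hc, ?_, ?_, ?_, ?_⟩, fun c hc c' hc' hcc x => ?_⟩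
  · have h1 := hG.cont (U : Filter (Finset X)) (fun F => σ F c) (s c)
      (Eventually.of_forall fun F => (hσ F c hc).1) (hsbox c hc) (hst c hc)
    funext x
    have h2 := (tendsto_pi_nhds.mp h1) x
    have h3 : ∀ᶠ F in (U : Filter (Finset X)), G (σ F c) x = σ F c x := by
      apply hUle
      filter_upwards [eventually_ge_atTop ({x} : Finset X)] with F hF
      exact (hσ F c hc).2.1 x (hF (Finset.mem_singleton_self x))
    exact tendsto_nhds_unique (h2.congr' h3) (hx c hc x)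
  · intro x
    exact ge_of_tendsto' (hx c hc x) fun F => (hσ F c hc).2.2.1 x
  · intro x
    exact le_of_tendsto' (hx c hc x) fun F => (hσ F c hc).2.2.2.1 x
  · exact tendsto_nhds_unique (hx c hc x0)
      (tendsto_const_nhds.congr fun F => ((hσ F c hc).2.2.2.2).symm)
  · exact le_of_tendsto_of_tendsto' (hx c hc x) (hx c' hc' x) fun F =>
      hσm F c hc c' hc' hcc x

end

/-- `y` can be reached from `x`: an individual of type `x` has, with positive probability, a
descendant of type `y` in some generation. -/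
def Reach (μ : X → PMF (X →₀ ℕ)) (x y : X) : Prop :=
  Relation.ReflTransGen (fun x y => ∃ f : X →₀ ℕ, μ x f ≠ 0 ∧ f y ≠ 0) x y

/-- the process is irreducible -/
def Irred (μ : X → PMF (X →₀ ℕ)) : Prop := ∀ x y, Reach μ x y

theorem mon_sub {q s t : X → ℝ} (hq : ∀ x, 0 < q x) (hqs : q ≤ s) (hs : Box s)
    (hst : s ≤ t) (f : X →₀ ℕ) {y : X} (hy : f y ≠ 0) :
    mon q f * (t y - s y) ≤ mon t f - mon s f := by
  classical
  have hs0 : ∀ x, 0 < s x := fun x => (hq x).trans_le (hqs x)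
  have hymem : y ∈ f.support := Finsupp.mem_support_iff.2 hy
  have e1 : ∀ r : X → ℝ, mon r f = r y ^ f y * ∏ z ∈ f.support.erase y, r z ^ f z := by
    intro r
    unfold mon Finsupp.prod
    exact (Finset.mul_prod_erase _ _ hymem).symm
  set A := ∏ z ∈ f.support.erase y, s z ^ f z with hA
  have hA0 : 0 ≤ A := Finset.prod_nonneg fun z _ => pow_nonneg (hs0 z).le _
  have hAt : A ≤ ∏ z ∈ f.support.erase y, t z ^ f z :=
    Finset.prod_le_prod (fun z _ => pow_nonneg (hs0 z).le _)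
      fun z _ => pow_le_pow_left₀ (hs0 z).le (hst z) _
  have hAq : ∏ z ∈ f.support.erase y, q z ^ f z ≤ A :=
    Finset.prod_le_prod (fun z _ => pow_nonneg (hq z).le _)
      fun z _ => pow_le_pow_left₀ (hq z).le (hqs z) _
  have hq0 : 0 ≤ ∏ z ∈ f.support.erase y, q z ^ f z :=
    Finset.prod_nonneg fun z _ => pow_nonneg (hq z).le _
  obtain ⟨n, hn⟩ : ∃ n, f y = n + 1 := ⟨f y - 1, by omega⟩
  have h1 : s y ^ n * (t y - s y) ≤ t y ^ (n + 1) - s y ^ (n + 1) := by
    have h2 : s y ^ n ≤ t y ^ n := pow_le_pow_left₀ (hs0 y).le (hst y) n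
    have h3 : 0 ≤ t y := (hs0 y).le.trans (hst y)
    have h4 : s y ^ n * t y ≤ t y ^ n * t y := mul_le_mul_of_nonneg_right h2 h3
    rw [pow_succ, pow_succ]
    linarith
  have h5 : q y ^ (n + 1) ≤ s y ^ n := by
    calc q y ^ (n + 1) ≤ s y ^ (n + 1) := pow_le_pow_left₀ (hq y).le (hqs y) _
      _ = s y ^ n * s y := pow_succ _ _
      _ ≤ s y ^ n * 1 := mul_le_mul_of_nonneg_left (hs y).2 (pow_nonneg (hs0 y).le _)
      _ = s y ^ n := mul_one _
  have hts : 0 ≤ t y - s y := sub_nonneg.2 (hst y)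
  rw [e1, e1, e1, hn]
  calc q y ^ (n + 1) * (∏ z ∈ f.support.erase y, q z ^ f z) * (t y - s y)
      ≤ s y ^ n * A * (t y - s y) := by
        refine mul_le_mul_of_nonneg_right ?_ hts
        exact mul_le_mul h5 hAq hq0 (pow_nonneg (hs0 y).le _)
    _ = (s y ^ n * (t y - s y)) * A := by ring
    _ ≤ (t y ^ (n + 1) - s y ^ (n + 1)) * A := mul_le_mul_of_nonneg_right h1 hA0
    _ ≤ t y ^ (n + 1) * (∏ z ∈ f.support.erase y, t z ^ f z) - s y ^ (n + 1) * A := by
        have h6 : t y ^ (n + 1) * A ≤ t y ^ (n + 1) * (∏ z ∈ f.support.erase y, t z ^ f z) :=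
          mul_le_mul_of_nonneg_left hAt (pow_nonneg ((hs0 y).le.trans (hst y)) _)
        linarith

/-- fixed points above a positive one: Lipschitz comparison of the coordinates -/
theorem lip [Countable X] (μ : X → PMF (X →₀ ℕ)) {q : X → ℝ} (hq : ∀ x, 0 < q x) {x y : X}
    (h : Reach μ x y) : ∃ K : ℝ, 0 < K ∧ ∀ s t : X → ℝ, Box s → Box t → gen μ s = s →
      gen μ t = t → q ≤ s → s ≤ t → t y - s y ≤ K * (t x - s x) := by
  induction h with
  | refl => exact ⟨1, one_pos, fun s t _ _ _ _ _ _ => by simp⟩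
  | @tail y z _ hyz ih =>
    obtain ⟨K, hK, hKs⟩ := ih
    obtain ⟨f, hf, hfz⟩ := hyz
    have hm : 0 < (μ y f).toReal := ENNReal.toReal_pos hf ((μ y).apply_ne_top f)
    have hmon : 0 < mon q f := Finset.prod_pos fun w _ => pow_pos (hq w) _
    set κ := (μ y f).toReal * mon q f with hκ
    have hκ0 : 0 < κ := mul_pos hm hmon
    refine ⟨κ⁻¹ * K, mul_pos (inv_pos.2 hκ0) hK, fun s t hs ht fs ft hqs hst => ?_⟩
    have h1 := hKs s t hs ht fs ft hqs hst
    have h2 : κ * (t z - s z) ≤ t y - s y := by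
      have e1 : t y - s y = ∑' g, (μ y g).toReal * (mon t g - mon s g) := by
        have e2 : t y = ∑' g, (μ y g).toReal * mon t g := (congrFun ft y).symm
        have e3 : s y = ∑' g, (μ y g).toReal * mon s g := (congrFun fs y).symm
        rw [e2, e3, ← (gen_summable μ ht y).tsum_sub (gen_summable μ hs y)]
        refine tsum_congr fun g => ?_
        ring
      rw [e1]
      have hsum : Summable fun g => (μ y g).toReal * (mon t g - mon s g) := by
        refine ((gen_summable μ ht y).sub (gen_summable μ hs y)).congr fun g => ?_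
        ring
      calc κ * (t z - s z) = (μ y f).toReal * (mon q f * (t z - s z)) := by rw [hκ]; ring
        _ ≤ (μ y f).toReal * (mon t f - mon s f) :=
            mul_le_mul_of_nonneg_left (mon_sub hq hqs hs hst f hfz) hm.le
        _ ≤ ∑' g, (μ y g).toReal * (mon t g - mon s g) :=
            hsum.le_tsum f fun g _ => mul_nonneg ENNReal.toReal_nonneg
              (sub_nonneg.2 (mon_mono hs hst g))
    calc t z - s z = κ⁻¹ * (κ * (t z - s z)) := by field_simp
      _ ≤ κ⁻¹ * (t y - s y) := mul_le_mul_of_nonneg_left h2 (inv_pos.2 hκ0).le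
      _ ≤ κ⁻¹ * (K * (t x - s x)) := mul_le_mul_of_nonneg_left h1 (inv_pos.2 hκ0).le
      _ = κ⁻¹ * K * (t x - s x) := by ring

end Pool.Agent.Y982.BF
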